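import Pool.Agent.Results.MP_bc0aea_an.GlobalLifting
import Pool.Agent.Y283.GL.Sep

/-!
# MP_bc0aea_an: one linear pencil between separable Frechet spaces for all open sets

The answer to the question on global lifting is negative on every nonempty open subset of every
nonzero complex normed space, always with the same pair of separable Frechet spaces, the same
linear pencil `u ζ = A + ζ B` of operators, and a constant right-hand side.
-/

open Set Topology Filter Metric

namespace Pool.Agent.Results.MP_bc0aea_an.SeparablePencil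

open Pool.Agent.Results.MP_bc0aea_an.GlobalLifting (polydisk)

section question

variable {X : Type*} [NormedAddCommGroup X] [NormedSpace ℂ X]
  {E F : Type*} [AddCommGroup E] [Module ℂ E] [UniformSpace E]
  [AddCommGroup F] [Module ℂ F] [UniformSpace F]

/-- Analytic maps from an open subset `D` of a normed space to the continuous linear operators:
every orbit map is holomorphic and the map is locally equicontinuous. -/
structure AnalyticFamily (D : Set X) (u : X → (E →L[ℂ] F)) : Prop where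
  holomorphic : ∀ x : E, DifferentiableOn ℂ (fun z => u z x) D
  equicontinuous : ∀ z₀ ∈ D, ∃ V ∈ 𝓝 z₀, V ⊆ D ∧ Equicontinuous (fun z : V => (u z : E → F))

/-- The induced morphism of sheaves on `D` is onto: every germ of a holomorphic `F`-valued map can
be lifted. -/
def OntoOnGerms (D : Set X) (u : X → (E →L[ℂ] F)) : Prop :=
  ∀ z₀ ∈ D, ∀ W : Set X, IsOpen W → z₀ ∈ W → W ⊆ D →
    ∀ g : X → F, DifferentiableOn ℂ g W →
      ∃ W' : Set X, IsOpen W' ∧ z₀ ∈ W' ∧ W' ⊆ W ∧
        ∃ f : X → E, DifferentiableOn ℂ f W' ∧ ∀ z ∈ W', u z (f z) = g z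

/-- The constant section `y` over `D` can be lifted. -/
def Lifts (D : Set X) (u : X → (E →L[ℂ] F)) (y : F) : Prop :=
  ∃ f : X → E, DifferentiableOn ℂ f D ∧ ∀ z ∈ D, u z (f z) = y

/-- `u ζ = A + ζ B` with continuous linear operators `A`, `B` -/
def IsPencil (u : ℂ → (E →L[ℂ] F)) : Prop :=
  ∃ A B : E →L[ℂ] F, ∀ (ζ : ℂ) (x : E), u ζ x = A x + ζ • B x

/-- For every holomorphic function `ζ` on an open subset `D` of a normed space the family
`z ↦ u (ζ z)` is analytic and onto on germs, but if `ζ` has a holomorphic right inverse on the disc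
of radius `6`, then the constant section `y` has no lifting over `D`. -/
def PullsBack (u : ℂ → (E →L[ℂ] F)) (y : F) : Prop :=
  ∀ (X : Type) [NormedAddCommGroup X] [NormedSpace ℂ X] (D : Set X) (ζ : X → ℂ),
    IsOpen D → DifferentiableOn ℂ ζ D →
      AnalyticFamily D (fun z => u (ζ z)) ∧ OntoOnGerms D (fun z => u (ζ z)) ∧
      ((∃ γ : ℂ → X, DifferentiableOn ℂ γ (ball 0 6) ∧
        ∀ x ∈ ball (0 : ℂ) 6, γ x ∈ D ∧ ζ (γ x) = x) → ¬ Lifts D (fun z => u (ζ z)) y)

/-- For every nonempty open subset `D` of a nonzero normed space `X` there is a continuous affine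
function on `X` such that the corresponding family is analytic and onto on germs on all of `X`,
while the constant section `y` has no lifting over `D`. -/
def AllOpenSets (u : ℂ → (E →L[ℂ] F)) (y : F) : Prop :=
  ∀ (X : Type) [NormedAddCommGroup X] [NormedSpace ℂ X] [Nontrivial X] (D : Set X),
    IsOpen D → D.Nonempty → ∃ (l : X →L[ℂ] ℂ) (c : ℂ),
      AnalyticFamily univ (fun z => u (l z + c)) ∧ OntoOnGerms univ (fun z => u (l z + c)) ∧
      ¬ Lifts D (fun z => u (l z + c)) y

/-- The negated form of the question on every open polydisk, in the definitions of the starting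
file. -/
def AllPolydisks (u : ℂ → (E →L[ℂ] F)) : Prop :=
  ∀ n : ℕ, 0 < n → ∀ (a : Fin n → ℂ) (r : Fin n → ℝ), (∀ j, 0 < r j) →
    ∃ (l : (Fin n → ℂ) →L[ℂ] ℂ) (c : ℂ),
      GlobalLifting.AnalyticFamily (polydisk a r) (fun z => u (l z + c)) ∧
      GlobalLifting.OntoOnGerms (polydisk a r) (fun z => u (l z + c)) ∧
      ¬ GlobalLifting.OntoOnSections (polydisk a r) (fun z => u (l z + c))

end question

open Pool.Agent.Y283.GL

theorem frechet_G' : GlobalLifting.IsFrechet G where
  uniformAddGroup := inferInstance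
  polynormable := inferInstance
  metrizable := inferInstance
  separated := inferInstance
  complete := inferInstance

theorem frechet_GG' : GlobalLifting.IsFrechet (G × G) where
  uniformAddGroup := inferInstance
  polynormable := inferInstance
  metrizable := inferInstance
  separated := inferInstance
  complete := inferInstance

theorem pencil_u : IsPencil u := by
  refine ⟨ContinuousLinearMap.fst ℂ G G - S.comp (ContinuousLinearMap.fst ℂ G G)
    - (amul Qa).comp (ContinuousLinearMap.snd ℂ G G), ContinuousLinearMap.snd ℂ G G,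
    fun ζ x => ?_⟩
  rw [u_apply' ζ x, add_comm]
  rfl

theorem equicont' {X : Type*} [TopologicalSpace X] (V : Set X) (ζ : X → ℂ) (R : ℝ)
    (hV : ∀ z ∈ V, ζ z ∈ closedBall (0 : ℂ) R) :
    Equicontinuous (fun z : V => (u (ζ z) : G × G → G)) := by
  apply equicontinuous_of_equicontinuousAt_zero (F := fun z : V => u (ζ z))
  intro N hN
  rw [uniformity_eq_comap_nhds_zero] at hN
  obtain ⟨M, hM, hMN⟩ := hN
  have h1 : ∀ᶠ x in 𝓝 (0 : G × G), ∀ c ∈ closedBall (0 : ℂ) R, u c x ∈ M := by
    apply (isCompact_closedBall (0 : ℂ) R).eventually_forall_of_forall_eventually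
    intro c _
    have h2 : Tendsto (fun p : (G × G) × ℂ => u p.2 p.1) (𝓝 (0, c)) (𝓝 0) := by
      have := continuous_u.tendsto ((0 : G × G), c)
      simpa using this
    exact h2 hM
  filter_upwards [h1] with x hx z
  apply hMN
  show u (ζ z) x - u (ζ z) 0 ∈ M
  rw [map_zero, sub_zero]
  exact hx _ (hV z z.2)

variable {X : Type*} [NormedAddCommGroup X] [NormedSpace ℂ X]

theorem analytic_u {D : Set X} {ζ : X → ℂ} (hD : IsOpen D) (hζ : DifferentiableOn ℂ ζ D) :
    AnalyticFamily D (fun z => u (ζ z)) := by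
  have hζd : ∀ z ∈ D, DifferentiableAt ℂ ζ z := fun z hz => (hζ z hz).differentiableAt (hD.mem_nhds hz)
  constructor
  · intro x z hz
    apply DifferentiableAt.differentiableWithinAt
    have h1 : (fun z => u (ζ z) x)
        = fun z => amul (ζ z • (1 : A)) x.2 + (x.1 - S x.1 - amul Qa x.2) := by
      funext z
      have h2 : amul (ζ z • (1 : A)) x.2 = ζ z • x.2 := by
        apply G_ext
        intro s
        rw [co_amul]
        show (ζ z * 1) * co x.2 s = ζ z * co x.2 s
        ring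
      rw [h2, ← u_apply' (ζ z) x]
    rw [h1]
    apply diffAt_G
    intro k
    simp only [map_add, kL_amul]
    have h3 : DifferentiableAt ℂ (fun z => ζ z • (1 : A)) z := (hζd z hz).smul_const 1
    exact (h3.mul_const _).add_const _
  · intro z₀ hz₀
    refine ⟨D ∩ {z | ‖ζ z‖ < ‖ζ z₀‖ + 1}, ?_, inter_subset_left, equicont' _ _ (‖ζ z₀‖ + 1)
      fun z hz => ?_⟩
    · refine inter_mem (hD.mem_nhds hz₀) ?_
      exact (hζd z₀ hz₀).continuousAt.norm.eventually_lt_const (by linarith)
    · rw [mem_closedBall, dist_zero_right]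
      exact hz.2.le

theorem germs_u {D : Set X} {ζ : X → ℂ} (hD : IsOpen D) (hζ : DifferentiableOn ℂ ζ D) :
    OntoOnGerms D (fun z => u (ζ z)) := by
  have hζd : ∀ z ∈ D, DifferentiableAt ℂ ζ z := fun z hz => (hζ z hz).differentiableAt (hD.mem_nhds hz)
  intro z₀ hz₀ W₀ hW₀ hzW hWD g hg
  obtain ⟨e, he⟩ : ∃ e : ℕ, 1 / 4 < ‖ζ z₀ - cen (e + 1)‖ := by
    by_contra hcon
    push Not at hcon
    have h0 := hcon 0
    have h1 := hcon 1
    have h2 : ‖cen 1 - cen (1 + 1)‖ = 1 := norm_cen_sub 1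
    have h3 : cen 1 - cen (1 + 1) = (ζ z₀ - cen (1 + 1)) - (ζ z₀ - cen (0 + 1)) := by
      rw [zero_add]; ring
    rw [h3] at h2
    have h4 := norm_sub_le (ζ z₀ - cen (1 + 1)) (ζ z₀ - cen (0 + 1))
    rw [h2] at h4
    linarith
  have hcont : ContinuousOn (fun z => ‖ζ z - cen (e + 1)‖) W₀ := fun z hz =>
    ((hζd z (hWD hz)).continuousAt.sub continuousAt_const).norm.continuousWithinAt
  have hW₁o : IsOpen (W₀ ∩ {z | 1 / 4 < ‖ζ z - cen (e + 1)‖}) :=
    hcont.isOpen_inter_preimage hW₀ isOpen_Ioi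
  obtain ⟨f, hf, hfu⟩ := local_onto e (W' := W₀ ∩ {z | 1 / 4 < ‖ζ z - cen (e + 1)‖})
    (fun z hz => hζd z (hWD hz.1)) (g := g)
    (fun z hz => (hg z hz.1).differentiableAt (hW₀.mem_nhds hz.1)) (fun z hz => hz.2)
  exact ⟨_, hW₁o, ⟨hzW, he⟩, inter_subset_left, f,
    fun z hz => (hf z hz).differentiableWithinAt, hfu⟩

theorem not_lifts {D : Set X} {ζ : X → ℂ} (hD : IsOpen D) {γ : ℂ → X}
    (hγ : DifferentiableOn ℂ γ (ball 0 6))
    (hγD : ∀ x ∈ ball (0 : ℂ) 6, γ x ∈ D ∧ ζ (γ x) = x) :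
    ¬ Lifts D (fun z => u (ζ z)) e0 := by
  rintro ⟨f, hf, hfu⟩
  have hγd : ∀ x ∈ ball (0 : ℂ) 6, DifferentiableAt ℂ γ x := fun x hx =>
    (hγ x hx).differentiableAt (isOpen_ball.mem_nhds hx)
  have hfd : ∀ x ∈ ball (0 : ℂ) 6, DifferentiableAt ℂ f (γ x) := fun x hx =>
    (hf _ (hγD x hx).1).differentiableAt (hD.mem_nhds (hγD x hx).1)
  have hk : ∀ k : ℕ, ∀ x ∈ ball (0 : ℂ) 6,
      DifferentiableAt ℂ (fun x : ℂ => kL k (f (γ x)).1) x := by
    intro k x hx
    have h1 : DifferentiableAt ℂ (fun z => kL k (f z).1) (γ x) :=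
      diffAt_clm ((kL k).comp (ContinuousLinearMap.fst ℂ G G)) (hfd x hx)
    exact DifferentiableAt.comp (g := fun z => kL k (f z).1) x h1 (hγd x hx)
  have hsub : closedBall (0 : ℂ) 5 ⊆ ball 0 6 := closedBall_subset_ball (by norm_num)
  obtain ⟨C, hC⟩ : ∃ C, ∀ x ∈ closedBall (0 : ℂ) 5, ‖kL 1 (f (γ x)).1‖ ≤ C :=
    (isCompact_closedBall _ _).exists_bound_of_continuousOn
      (fun x hx => (hk 1 x (hsub hx)).continuousAt.continuousWithinAt)
  have heq : ∀ x ∈ ball (0 : ℂ) 6, ∀ s, co (f (γ x)).1 s - tl (co (f (γ x)).1) s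
      + (x - pt s) * co (f (γ x)).2 s = if s = [] then 1 else 0 := by
    intro x hx s
    have h1 : u (ζ (γ x)) (f (γ x)) = e0 := hfu _ (hγD x hx).1
    rw [(hγD x hx).2] at h1
    rw [← co_e0, ← h1, ← co_u]
  have hpt : ∀ s, pt s ∈ ball (0 : ℂ) 6 := by
    intro s
    rw [mem_ball, dist_zero_right]
    exact lt_of_le_of_lt (norm_pt_le s) (by norm_num)
  have hzero : co (f (γ 0)).1 [] = 0 := by
    apply rigid (φ := fun s x => co (f (γ x)).1 s) _ (C := C) _ _
    · intro s x hx
      apply DifferentiableAt.differentiableWithinAt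
      exact diffAt_clm (BoundedContinuousFunction.evalCLM ℂ s : A →L[ℂ] ℂ) (hk 0 x hx)
    · intro s x hx
      exact (bd (f (γ x)).1 1 s).trans (hC x hx)
    · intro p s
      have h1 := heq (pt (p :: s)) (hpt _) (p :: s)
      rw [sub_self, zero_mul, add_zero, if_neg (by simp)] at h1
      exact sub_eq_zero.1 h1
  have h1 := heq 0 (mem_ball_self (by norm_num)) []
  rw [hzero] at h1
  simp [tl, pt] at h1

theorem exists_affine [Nontrivial X] {D : Set X} (hD : IsOpen D) (hne : D.Nonempty) :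
    ∃ (l : X →L[ℂ] ℂ) (c : ℂ) (γ : ℂ → X), Differentiable ℂ γ ∧
      ∀ x ∈ ball (0 : ℂ) 6, γ x ∈ D ∧ l (γ x) + c = x := by
  obtain ⟨a, ha⟩ := hne
  obtain ⟨ρ, hρ, hball⟩ := Metric.isOpen_iff.1 hD a ha
  obtain ⟨v, hv⟩ := exists_ne (0 : X)
  obtain ⟨l₀, hl₀⟩ := SeparatingDual.exists_eq_one (R := ℂ) hv
  have hv0 : 0 < ‖v‖ := norm_pos_iff.2 hv
  set t : ℝ := ρ / (6 * ‖v‖) with ht
  have ht0 : 0 < t := by positivity
  have htc : (t : ℂ) ≠ 0 := by exact_mod_cast ht0.ne'
  refine ⟨(t : ℂ)⁻¹ • l₀, -((t : ℂ)⁻¹ * l₀ a), fun x => a + x • ((t : ℂ) • v), by fun_prop, ?_⟩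
  intro x hx
  rw [mem_ball, dist_zero_right] at hx
  constructor
  · apply hball
    rw [mem_ball, dist_eq_norm, add_sub_cancel_left, norm_smul, norm_smul, Complex.norm_real,
      Real.norm_of_nonneg ht0.le]
    calc ‖x‖ * (t * ‖v‖) < 6 * (t * ‖v‖) := mul_lt_mul_of_pos_right hx (by positivity)
      _ = ρ := by rw [ht]; field_simp
  · simp only [smul_apply, map_add, map_smul, smul_eq_mul, hl₀, mul_one]
    field_simp
    ring

/-- **Main theorem.** -/
theorem result :
    ∃ (E F : Type) (_ : AddCommGroup E) (_ : Module ℂ E) (_ : UniformSpace E)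
      (_ : AddCommGroup F) (_ : Module ℂ F) (_ : UniformSpace F)
      (u : ℂ → (E →L[ℂ] F)) (y : F),
      GlobalLifting.IsFrechet E ∧ GlobalLifting.IsFrechet F ∧ TopologicalSpace.SeparableSpace E ∧
        TopologicalSpace.SeparableSpace F ∧ IsPencil u ∧ PullsBack u y ∧ AllOpenSets u y ∧
        AllPolydisks u := by
  have hopen : AllOpenSets u e0 := by
    intro X _ _ _ D hD hne
    obtain ⟨l, c, γ, hγ, hγD⟩ := exists_affine hD hne
    have hd : Differentiable ℂ fun z => l z + c := by fun_prop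
    exact ⟨l, c, analytic_u isOpen_univ hd.differentiableOn, germs_u isOpen_univ hd.differentiableOn,
      not_lifts (ζ := fun z => l z + c) hD hγ.differentiableOn hγD⟩
  refine ⟨G × G, G, inferInstance, inferInstance, inferInstance, inferInstance, inferInstance,
    inferInstance, u, e0, frechet_GG', frechet_G', separable_GG, separable_G, pencil_u, ?_,
    hopen, ?_⟩
  · intro X _ _ D ζ hD hζ
    refine ⟨analytic_u hD hζ, germs_u hD hζ, ?_⟩
    rintro ⟨γ, hγ, hγD⟩
    exact not_lifts hD hγ hγD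
  · intro n hn a r hr
    have : Nonempty (Fin n) := ⟨⟨0, hn⟩⟩
    have hD := GlobalLifting.isOpen_polydisk a r
    obtain ⟨l, c, h1, h2, h3⟩ := hopen (Fin n → ℂ) (polydisk a r) hD
      ⟨a, fun j => by rw [sub_self, norm_zero]; exact hr j⟩
    refine ⟨l, c, ⟨fun x => (h1.holomorphic x).mono (subset_univ _), fun z₀ hz₀ => ?_⟩, ?_, ?_⟩
    · obtain ⟨V, hV, -, hVe⟩ := h1.equicontinuous z₀ (mem_univ _)
      exact ⟨V, hV, hVe⟩
    · intro z₀ hz₀ W hW hzW hWD g hg
      exact h2 z₀ (mem_univ _) W hW hzW (subset_univ _) g hg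
    · intro h
      obtain ⟨f, hf, hfu⟩ := h (fun _ => e0) (differentiableOn_const _)
      exact h3 ⟨f, hf, hfu⟩

end Pool.Agent.Results.MP_bc0aea_an.SeparablePencil
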